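import Mathlib.Combinatorics.SimpleGraph.Circulant
import Mathlib.Combinatorics.SimpleGraph.Maps
import Mathlib.Data.Real.Basic
import Mathlib.Tactic

/-!
# Semiring-homomorphic graph invariants and lexicographic products: definitions

Project SHI (helper26), problem MP_4c8f29_co (Roberson's question): there is a
semiring-homomorphic graph invariant `η` with `η (C₅ ⋉ K_d) < d η (C₅)`.
-/

set_option autoImplicit false

namespace Pool.Agent.K7.H26.SHI

variable {V W : Type}

/-- The join `G + H`. -/
def join (G : SimpleGraph V) (H : SimpleGraph W) : SimpleGraph (V ⊕ W) where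
  Adj x y := match x, y with
    | Sum.inl v, Sum.inl v' => G.Adj v v'
    | Sum.inr w, Sum.inr w' => H.Adj w w'
    | Sum.inl _, Sum.inr _ => True
    | Sum.inr _, Sum.inl _ => True
  symm := by
    constructor
    rintro (v | w) (v' | w') h
    · exact G.adj_symm h
    · trivial
    · trivial
    · exact H.adj_symm h
  loopless := by
    constructor
    rintro (v | w) h
    · exact G.loopless.irrefl v h
    · exact H.loopless.irrefl w h

/-- The disjunctive product `G * H`. -/
def disj (G : SimpleGraph V) (H : SimpleGraph W) : SimpleGraph (V × W) where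
  Adj x y := G.Adj x.1 y.1 ∨ H.Adj x.2 y.2
  symm := by
    constructor
    rintro x y (h | h)
    · exact Or.inl (G.adj_symm h)
    · exact Or.inr (H.adj_symm h)
  loopless := by
    constructor
    rintro x (h | h)
    · exact G.loopless.irrefl _ h
    · exact H.loopless.irrefl _ h

/-- The lexicographic product `G ⋉ H`. -/
def lex (G : SimpleGraph V) (H : SimpleGraph W) : SimpleGraph (V × W) where
  Adj x y := G.Adj x.1 y.1 ∨ (x.1 = y.1 ∧ H.Adj x.2 y.2)
  symm := by
    constructor
    rintro x y (h | ⟨h, h'⟩)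
    · exact Or.inl (G.adj_symm h)
    · exact Or.inr ⟨h.symm, H.adj_symm h'⟩
  loopless := by
    constructor
    rintro x (h | ⟨_, h⟩)
    · exact G.loopless.irrefl _ h
    · exact H.loopless.irrefl _ h

/-- The `N`-fold disjunctive power. -/
def dpow (G : SimpleGraph V) (N : ℕ) : SimpleGraph (Fin N → V) where
  Adj x y := ∃ i, G.Adj (x i) (y i)
  symm := by
    constructor
    rintro x y ⟨i, h⟩
    exact ⟨i, G.adj_symm h⟩
  loopless := by
    constructor
    rintro x ⟨i, h⟩
    exact G.loopless.irrefl _ h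

/-- The 5-cycle. -/
abbrev C5 : SimpleGraph (Fin 5) := SimpleGraph.cycleGraph 5

/-- The complete graph on `n` vertices. -/
abbrev KK (n : ℕ) : SimpleGraph (Fin n) := ⊤

/-- A semiring-homomorphic graph invariant. -/
structure IsSHInvariant (η : ∀ (V : Type) [Fintype V], SimpleGraph V → ℝ) : Prop where
  nonneg : ∀ (V : Type) [Fintype V] (G : SimpleGraph V), 0 ≤ η V G
  one : η (Fin 1) (KK 1) = 1
  mono : ∀ (V W : Type) [Fintype V] [Fintype W] (G : SimpleGraph V) (H : SimpleGraph W),
    Nonempty (G →g H) → η V G ≤ η W H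
  join : ∀ (V W : Type) [Fintype V] [Fintype W] (G : SimpleGraph V) (H : SimpleGraph W),
    η (V ⊕ W) (join G H) = η V G + η W H
  disj : ∀ (V W : Type) [Fintype V] [Fintype W] (G : SimpleGraph V) (H : SimpleGraph W),
    η (V × W) (disj G H) = η V G * η W H

/-- the number of layers -/
def mm : ℕ := 300 ^ 11

/-- the kernel on the vertices of `lex C5 (KK mm)`: `0` on adjacent pairs; `K - J` is positive
semidefinite -/
noncomputable def ker (p q : Fin 5 × Fin mm) : ℝ :=
  open Classical in
  if p.1 = q.1 then (if p.2 = q.2 then (mm : ℝ) * (1077 / 1000) ^ 11 else 0)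
  else if C5.Adj p.1 q.1 then 0 else (10295 / 10000) ^ 11

/-- JOB KER: the tensor powers of the kernel dominate the all-ones matrix. -/
def StKer : Prop := ∀ (N : ℕ) (Y : Finset (Fin N → Fin 5 × Fin mm)),
  (Y.card : ℝ) ^ 2 ≤ ∑ y ∈ Y, ∑ y' ∈ Y, ∏ i, ker (y i) (y' i)

open Classical in
/-- JOB BOUND (from StKer): a set of vertices of the power of `lex C5 (KK mm)` in which every
vertex has at most `3 ^ N` non-neighbours (itself included) is small. -/
def StBound : Prop := ∀ (N : ℕ) (Y : Finset (Fin N → Fin 5 × Fin mm)),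
  (∀ y ∈ Y, (Y.filter fun y' => ¬ (dpow (lex C5 (KK mm)) N).Adj y y').card ≤ 3 ^ N) →
  (Y.card : ℝ) ≤ ((2499 / 1000) * mm) ^ N

/-- JOB COUNT (from StBound): the counting lemma. -/
def StComb : Prop := ∀ J L N : ℕ,
  Nonempty (disj (KK J) (dpow C5 N) →g disj (KK L) (dpow (lex C5 (KK mm)) N)) →
    (J : ℝ) * (5 / 2) ^ N ≤ L * ((2499 / 1000) * mm) ^ N

end Pool.Agent.K7.H26.SHI
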