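import Mathlib.Tactic
import Mathlib.Order.Zorn
import Mathlib.Algebra.Order.Archimedean.Real.Basic
import Mathlib.Algebra.Order.Floor.Semiring

/-!
# Strassen's duality, abstract part

A commutative semiring with a preorder. If `y ^ N` is not bounded by a multiple of `x ^ N`
asymptotically, then the preorder extends to a total one with `x ≤ y`.
-/

set_option autoImplicit false

namespace Pool.Agent.K7.H26.SHI

universe u
variable {S : Type u} [CommSemiring S]

/-- the assumptions on the preorder of the semiring -/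
structure Base (le : S → S → Prop) : Prop where
  refl : ∀ a, le a a
  trans : ∀ a b c, le a b → le b c → le a c
  add : ∀ a b c, le a b → le (a + c) (b + c)
  mul : ∀ a b c, le a b → le (a * c) (b * c)
  zero : ∀ a, le 0 a
  arch : ∀ a, ∃ n : ℕ, le a n
  one : ∀ a, a = 0 ∨ le 1 a
  nat : ∀ n m : ℕ, le (n : S) m → n ≤ m

/-- extensions of the preorder -/
structure Good (le : S → S → Prop) (R : Set (S × S)) : Prop where
  ext : ∀ a b, le a b → (a, b) ∈ R
  trans : ∀ a b c, (a, b) ∈ R → (b, c) ∈ R → (a, c) ∈ R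
  add : ∀ a b c, (a, b) ∈ R → (a + c, b + c) ∈ R
  mul : ∀ a b c, (a, b) ∈ R → (a * c, b * c) ∈ R
  nat : ∀ n m : ℕ, ((n : S), (m : S)) ∈ R → n ≤ m

variable {le : S → S → Prop}

theorem Base.add' (h : Base le) {a b c d : S} (h1 : le a b) (h2 : le c d) :
    le (a + c) (b + d) := by
  refine h.trans _ _ _ (h.add _ _ c h1) ?_
  rw [add_comm b c, add_comm b d]
  exact h.add _ _ b h2

theorem Base.mul' (h : Base le) {a b c d : S} (h1 : le a b) (h2 : le c d) :
    le (a * c) (b * d) := by
  refine h.trans _ _ _ (h.mul _ _ c h1) ?_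
  rw [mul_comm b c, mul_comm b d]
  exact h.mul _ _ b h2

theorem Good.add' {R : Set (S × S)} (h : Good le R) {a b c d : S} (h1 : (a, b) ∈ R)
    (h2 : (c, d) ∈ R) : (a + c, b + d) ∈ R := by
  refine h.trans _ _ _ (h.add _ _ c h1) ?_
  rw [add_comm b c, add_comm b d]
  exact h.add _ _ b h2

theorem Good.mul' {R : Set (S × S)} (h : Good le R) {a b c d : S} (h1 : (a, b) ∈ R)
    (h2 : (c, d) ∈ R) : (a * c, b * d) ∈ R := by
  refine h.trans _ _ _ (h.mul _ _ c h1) ?_
  rw [mul_comm b c, mul_comm b d]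
  exact h.mul _ _ b h2

theorem Base.nat_mono (hB : Base le) {n m : ℕ} (h : n ≤ m) : le (n : S) m := by
  obtain ⟨k, rfl⟩ := Nat.exists_eq_add_of_le h
  have := hB.add' (hB.refl (n : S)) (hB.zero (k : S))
  simpa using this

theorem Base.pow (hB : Base le) {a b : S} (h : le a b) (N : ℕ) : le (a ^ N) (b ^ N) := by
  induction N with
  | zero => simpa using hB.refl 1
  | succ n ih => rw [pow_succ, pow_succ]; exact hB.mul' ih h

/-- adding the relation `x ≤ y` -/
theorem Good.extend {R : Set (S × S)} (h : Good le R) (x y : S)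
    (hc : ∀ (s : S) (n : ℕ), ((n : S) + 1 + s * y, (n : S) + s * x) ∉ R) (hB : Base le) :
    Good le {p | ∃ s, (p.1 + s * y, p.2 + s * x) ∈ R} ∧
      R ⊆ {p | ∃ s, (p.1 + s * y, p.2 + s * x) ∈ R} ∧
      (x, y) ∈ {p : S × S | ∃ s, (p.1 + s * y, p.2 + s * x) ∈ R} := by
  have hsub : R ⊆ {p | ∃ s, (p.1 + s * y, p.2 + s * x) ∈ R} := by
    rintro ⟨a, b⟩ hab
    exact ⟨0, by simpa using hab⟩
  refine ⟨⟨?_, ?_, ?_, ?_, ?_⟩, hsub, ?_⟩
  · intro a b hab
    exact hsub (h.ext a b hab)
  · rintro a b c ⟨s, hs⟩ ⟨t, ht⟩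
    refine ⟨s + t, ?_⟩
    have h1 := h.add _ _ (t * y) hs
    have h2 := h.add _ _ (s * x) ht
    have h3 : (b + s * x + t * y) = b + t * y + s * x := by ring
    dsimp only at *
    rw [h3] at h1
    have := h.trans _ _ _ h1 h2
    convert this using 2 <;> ring
  · rintro a b c ⟨s, hs⟩
    refine ⟨s, ?_⟩
    have := h.add _ _ c hs
    dsimp only at *
    convert this using 2 <;> ring
  · rintro a b c ⟨s, hs⟩
    refine ⟨s * c, ?_⟩
    have := h.mul _ _ c hs
    dsimp only at *
    convert this using 2 <;> ring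
  · rintro n m ⟨s, hs⟩
    by_contra hlt
    push Not at hlt
    obtain ⟨k, rfl⟩ := Nat.exists_eq_add_of_lt hlt
    refine hc s m ?_
    dsimp only at hs
    refine h.trans _ _ _ (h.ext _ _ ?_) hs
    refine hB.add' ?_ (hB.refl _)
    have := hB.nat_mono (n := m + 1) (m := m + k + 1) (by omega)
    simpa using this
  · refine ⟨1, ?_⟩
    have : (x + 1 * y : S) = y + 1 * x := by ring
    dsimp only
    rw [this]
    exact h.ext _ _ (hB.refl _)

/-- the first extension is consistent -/
theorem start (hB : Base le) (x y : S) (hx : x ≠ 0) (α β : ℝ) (hβ : 0 < β) (hαβ : β < α)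
    (hobs : ∀ j L N : ℕ, le ((j : S) * y ^ N) ((L : S) * x ^ N) → (j : ℝ) * α ^ N ≤ L * β ^ N) :
    ∀ (s : S) (n : ℕ), ¬ le ((n : S) + 1 + s * y) ((n : S) + s * x) := by
  intro s n h
  have hs : s ≠ 0 := by
    rintro rfl
    have h2 : le (((n + 1 : ℕ) : S)) ((n : ℕ) : S) := by simpa using h
    have := hB.nat _ _ h2
    omega
  have hs1 : le 1 s := (hB.one s).resolve_left hs
  have hx1 : le 1 x := (hB.one x).resolve_left hx
  have h1 : le (s * y + n) (s * x + n) := by
    have : le (s * y + n) ((n : S) + 1 + s * y) := by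
      have := hB.add' (hB.refl (s * y + n)) (hB.zero (1 : S))
      convert this using 1 <;> ring
    have := hB.trans _ _ _ this h
    convert this using 1
    ring
  have key : ∀ N : ℕ, ∃ D, le (s * y ^ N + D) (s * x ^ N + D) := by
    intro N
    induction N with
    | zero => exact ⟨0, by simpa using hB.refl s⟩
    | succ N ih =>
      obtain ⟨D, hD⟩ := ih
      refine ⟨D * y + n * x ^ N, ?_⟩
      have a1 := hB.add _ _ (n * x ^ N) (hB.mul _ _ y hD)
      have a2 := hB.add _ _ (D * y) (hB.mul _ _ (x ^ N) h1)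
      have e1 : (s * y ^ N + D) * y + n * x ^ N = s * y ^ (N + 1) + (D * y + n * x ^ N) := by ring
      have e2 : (s * x ^ N + D) * y + n * x ^ N = (s * y + n) * x ^ N + D * y := by ring
      have e3 : (s * x + n) * x ^ N + D * y = s * x ^ (N + 1) + (D * y + n * x ^ N) := by ring
      rw [e1, e2] at a1
      rw [e3] at a2
      exact hB.trans _ _ _ a1 a2
  obtain ⟨k, hk⟩ := hB.arch s
  have bound : ∀ N : ℕ, α ^ N ≤ (k + 1) * β ^ N := by
    intro N
    obtain ⟨D, hD⟩ := key N
    have hiter : ∀ j : ℕ, le (j * (s * y ^ N) + D) (j * (s * x ^ N) + D) := by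
      intro j
      induction j with
      | zero => simpa using hB.refl D
      | succ j ih =>
        have a1 := hB.add _ _ (s * y ^ N) ih
        have a2 := hB.add _ _ (j * (s * x ^ N)) hD
        have e1 : (j : S) * (s * y ^ N) + D + s * y ^ N = ((j + 1 : ℕ) : S) * (s * y ^ N) + D := by
          push_cast; ring
        have e2 : (j : S) * (s * x ^ N) + D + s * y ^ N = s * y ^ N + D + j * (s * x ^ N) := by
          ring
        have e3 : s * x ^ N + D + j * (s * x ^ N) = ((j + 1 : ℕ) : S) * (s * x ^ N) + D := by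
          push_cast; ring
        rw [e1, e2] at a1
        rw [e3] at a2
        exact hB.trans _ _ _ a1 a2
    obtain ⟨M, hM⟩ := hB.arch D
    have hj := hiter (M + 1)
    have l1 : le (((M + 1 : ℕ) : S) * y ^ N) (((M + 1 : ℕ) : S) * (s * y ^ N) + D) := by
      have b1 : le (y ^ N) (s * y ^ N) := by simpa using hB.mul _ _ (y ^ N) hs1
      have b2 := hB.mul' (hB.refl (((M + 1 : ℕ) : S))) b1
      have b3 := hB.add' b2 (hB.zero D)
      simpa using b3
    have l2 : le (((M + 1 : ℕ) : S) * (s * x ^ N) + D)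
        ((((M + 1) * k + M : ℕ) : S) * x ^ N) := by
      have b1 : le (((M + 1 : ℕ) : S) * (s * x ^ N)) (((M + 1 : ℕ) : S) * (k * x ^ N)) :=
        hB.mul' (hB.refl _) (hB.mul _ _ _ hk)
      have b2 : le D (M * x ^ N) := by
        refine hB.trans _ _ _ hM ?_
        have := hB.mul' (hB.refl (M : S)) (hB.pow hx1 N)
        simpa using this
      have := hB.add' b1 b2
      convert this using 1
      push_cast; ring
    have := hobs _ _ N (hB.trans _ _ _ l1 (hB.trans _ _ _ hj l2))
    push_cast at this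
    have hM0 : (0 : ℝ) < (M : ℝ) + 1 := by positivity
    have hb : 0 < β ^ N := pow_pos hβ N
    have h5 : ((M : ℝ) + 1) * α ^ N ≤ ((M : ℝ) + 1) * ((k + 1) * β ^ N) := by
      refine this.trans ?_
      nlinarith
    exact le_of_mul_le_mul_left h5 hM0
  -- exponential growth
  have hr : 1 < α / β := (one_lt_div hβ).2 hαβ
  obtain ⟨N, hN⟩ := pow_unbounded_of_one_lt ((k : ℝ) + 1) hr
  have h3 := bound N
  rw [div_pow, lt_div_iff₀ (pow_pos hβ N)] at hN
  linarith

/-- cancellation in a maximal extension -/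
theorem cancel (hB : Base le) {R : Set (S × S)} (h : Good le R)
    (hmax : ∀ R', Good le R' → R ⊆ R' → R' ⊆ R) {a b c : S} (habc : (a + c, b + c) ∈ R) :
    (a, b) ∈ R := by
  have hG : Good le {p : S × S | ∃ c, (p.1 + c, p.2 + c) ∈ R} := by
    refine ⟨?_, ?_, ?_, ?_, ?_⟩
    · intro a b hab
      exact ⟨0, by simpa using h.ext a b hab⟩
    · rintro a b d ⟨s, hs⟩ ⟨t, ht⟩
      refine ⟨s + t, ?_⟩
      have h1 := h.add _ _ t hs
      have h2 := h.add _ _ s ht
      dsimp only at *
      have h3 : b + s + t = b + t + s := by ring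
      rw [h3] at h1
      have := h.trans _ _ _ h1 h2
      convert this using 2 <;> ring
    · rintro a b d ⟨s, hs⟩
      refine ⟨s, ?_⟩
      have := h.add _ _ d hs
      dsimp only at *
      convert this using 2 <;> ring
    · rintro a b d ⟨s, hs⟩
      refine ⟨s * d, ?_⟩
      have := h.mul _ _ d hs
      dsimp only at *
      convert this using 2 <;> ring
    · rintro n m ⟨s, hs⟩
      by_contra hlt
      push Not at hlt
      obtain ⟨k, rfl⟩ := Nat.exists_eq_add_of_lt hlt
      dsimp only at hs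
      set c' : S := m + s with hc'
      have h1 : ((1 : S) + c', c') ∈ R := by
        refine h.trans _ _ _ (h.ext _ _ ?_) hs
        have h0 := hB.nat_mono (n := m + 1) (m := m + k + 1) (by omega)
        have := hB.add _ _ s h0
        convert this using 1
        rw [hc']; push_cast; ring
      have hiter : ∀ j : ℕ, ((j : S) + c', c') ∈ R := by
        intro j
        induction j with
        | zero => simpa using h.ext _ _ (hB.refl c')
        | succ j ih =>
          have := h.add _ _ (1 : S) ih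
          refine h.trans _ _ _ ?_ h1
          convert this using 2
          · push_cast; ring
          · ring
      obtain ⟨M, hM⟩ := hB.arch c'
      have h2 := hiter (M + 1)
      have h3 : (((M + 1 : ℕ) : S), ((M + 1 : ℕ) : S) + c') ∈ R := by
        refine h.ext _ _ ?_
        have := hB.add' (hB.refl (((M + 1 : ℕ) : S))) (hB.zero c')
        simpa using this
      have h4 := h.trans _ _ _ h3 (h.trans _ _ _ h2 (h.ext _ _ hM))
      have := h.nat _ _ h4
      omega
  refine hmax _ hG ?_ ⟨c, habc⟩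
  rintro ⟨p, q⟩ hpq
  exact ⟨0, by simpa using hpq⟩

/-- a maximal extension is total -/
theorem total (hB : Base le) {R : Set (S × S)} (h : Good le R)
    (hmax : ∀ R', Good le R' → R ⊆ R' → R' ⊆ R) (x y : S) : (x, y) ∈ R ∨ (y, x) ∈ R := by
  by_contra hcon
  push Not at hcon
  obtain ⟨h1, h2⟩ := hcon
  have aux : ∀ x y : S, (x, y) ∉ R → ∃ s, ((1 : S) + s * y, s * x) ∈ R := by
    intro x y hxy
    by_contra hno
    push Not at hno
    have hc : ∀ (s : S) (n : ℕ), ((n : S) + 1 + s * y, (n : S) + s * x) ∉ R := by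
      intro s n hh
      refine hno s (cancel hB h hmax (c := (n : S)) ?_)
      convert hh using 2 <;> ring
    obtain ⟨g1, g2, g3⟩ := h.extend x y hc hB
    exact hxy (hmax _ g1 g2 g3)
  obtain ⟨s, hs⟩ := aux x y h1
  obtain ⟨t, ht⟩ := aux y x h2
  have a1 := h.add _ _ s (h.mul _ _ t hs)
  have a2 := h.mul _ _ s ht
  -- t + s t y + s ≤ s t x + s ≤ s t y
  have e1 : (1 + s * y) * t + s = (s + t) + s * t * y := by ring
  have e2 : s * x * t + s = (1 + t * x) * s := by ring
  have e3 : t * y * s = 0 + s * t * y := by ring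
  rw [e1, e2] at a1
  rw [e3] at a2
  have a3 := cancel hB h hmax (h.trans _ _ _ a1 a2)
  have hs0 : s ≠ 0 := by
    rintro rfl
    have : (((1 : ℕ) : S), ((0 : ℕ) : S)) ∈ R := by simpa using hs
    have := h.nat _ _ this
    omega
  have hs1 : le 1 s := (hB.one s).resolve_left hs0
  have h6 : le 1 (s + t) := by
    have := hB.add' hs1 (hB.zero t)
    simpa using this
  have h7 := h.trans _ _ _ (h.ext _ _ h6) a3
  have : (((1 : ℕ) : S), ((0 : ℕ) : S)) ∈ R := by simpa using h7
  have := h.nat _ _ this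
  omega

/-- a total extension containing `x ≤ y` -/
theorem exists_total (hB : Base le) (x y : S) (hx : x ≠ 0) (α β : ℝ) (hβ : 0 < β) (hαβ : β < α)
    (hobs : ∀ j L N : ℕ, le ((j : S) * y ^ N) ((L : S) * x ^ N) → (j : ℝ) * α ^ N ≤ L * β ^ N) :
    ∃ R : Set (S × S), Good le R ∧ (x, y) ∈ R ∧ ∀ a b, (a, b) ∈ R ∨ (b, a) ∈ R := by
  have h0 : Good le {p : S × S | le p.1 p.2} :=
    ⟨fun _ _ h => h, fun a b c h1 h2 => hB.trans a b c h1 h2, fun a b c h => hB.add a b c h,
      fun a b c h => hB.mul a b c h, fun n m h => hB.nat n m h⟩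
  have hst := start hB x y hx α β hβ hαβ hobs
  obtain ⟨g1, _, g3⟩ := h0.extend x y (fun s n hh => hst s n hh) hB
  obtain ⟨R, hR1, hR2⟩ := zorn_subset_nonempty {R : Set (S × S) | Good le R} (by
    intro c hc hchain hne
    refine ⟨⋃₀ c, ⟨?_, ?_, ?_, ?_, ?_⟩, fun s hs => Set.subset_sUnion_of_mem hs⟩
    · intro a b hab
      obtain ⟨r, hr⟩ := hne
      exact ⟨r, hr, (hc hr).ext a b hab⟩
    · rintro a b d ⟨r, hr, h1⟩ ⟨r', hr', h2⟩
      rcases hchain.total hr hr' with hh | hh
      · exact ⟨r', hr', (hc hr').trans _ _ _ (hh h1) h2⟩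
      · exact ⟨r, hr, (hc hr).trans _ _ _ h1 (hh h2)⟩
    · rintro a b d ⟨r, hr, h1⟩
      exact ⟨r, hr, (hc hr).add _ _ _ h1⟩
    · rintro a b d ⟨r, hr, h1⟩
      exact ⟨r, hr, (hc hr).mul _ _ _ h1⟩
    · rintro n m ⟨r, hr, h1⟩
      exact (hc hr).nat _ _ h1) _ g1
  have hGR : Good le R := hR2.prop
  have hmax : ∀ R', Good le R' → R ⊆ R' → R' ⊆ R := fun R' h1 h2 => hR2.le_of_ge h1 h2
  exact ⟨R, hGR, hR1 g3, total hB hGR hmax⟩

end Pool.Agent.K7.H26.SHI
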