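import Pool.Agent.K7.H26.SHI.Dual

/-!
# The homomorphism to the reals of a total extension
-/

set_option autoImplicit false

namespace Pool.Agent.K7.H26.SHI

universe u
variable {S : Type u} [CommSemiring S] {le : S → S → Prop}

/-- the value of `a`: the infimum of the `p / q` with `q a ≤ p` -/
noncomputable def val (R : Set (S × S)) (a : S) : ℝ :=
  sInf {ρ : ℝ | ∃ p q : ℕ, 0 < q ∧ ((q : S) * a, (p : S)) ∈ R ∧ ρ = p / q}

theorem Good.nat_mono {R : Set (S × S)} (hB : Base le) (h : Good le R) {n m : ℕ} (hnm : n ≤ m) :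
    ((n : S), (m : S)) ∈ R := h.ext _ _ (hB.nat_mono hnm)

theorem val_le (R : Set (S × S)) (a : S) (p q : ℕ) (hq : 0 < q)
    (h : ((q : S) * a, (p : S)) ∈ R) : val R a ≤ p / q := by
  refine csInf_le ⟨0, ?_⟩ ⟨p, q, hq, h, rfl⟩
  rintro ρ ⟨p, q, _, _, rfl⟩
  positivity

theorem exists_upper (hB : Base le) {R : Set (S × S)} (h : Good le R) (a : S) :
    ∃ M : ℕ, ∀ q : ℕ, ((q : S) * a, ((q * M : ℕ) : S)) ∈ R := by
  obtain ⟨M, hM⟩ := hB.arch a
  refine ⟨M, fun q => ?_⟩
  have := h.mul' (h.ext _ _ (hB.refl (q : S))) (h.ext _ _ hM)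
  simpa using this

theorem le_val (hB : Base le) {R : Set (S × S)} (h : Good le R) (a : S) (p q : ℕ) (hq : 0 < q)
    (h1 : ((p : S), (q : S) * a) ∈ R) : (p / q : ℝ) ≤ val R a := by
  obtain ⟨M, hM⟩ := exists_upper hB h a
  refine le_csInf ⟨((1 * M : ℕ) : ℝ) / (1 : ℕ), 1 * M, 1, one_pos, hM 1, rfl⟩ ?_
  rintro ρ ⟨p', q', hq', h2, rfl⟩
  have a1 := h.mul _ _ (q' : S) h1
  have a2 := h.mul _ _ (q : S) h2
  have e : (q : S) * a * q' = q' * a * q := by ring
  rw [e] at a1
  have a3 := h.trans _ _ _ a1 a2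
  have a4 : p * q' ≤ p' * q := h.nat _ _ (by exact_mod_cast a3)
  have hq0 : (0 : ℝ) < q := by exact_mod_cast hq
  have hq0' : (0 : ℝ) < q' := by exact_mod_cast hq'
  rw [div_le_div_iff₀ hq0 hq0']
  exact_mod_cast a4

/-- approximation -/
theorem approx (hB : Base le) {R : Set (S × S)} (h : Good le R)
    (ht : ∀ a b, (a, b) ∈ R ∨ (b, a) ∈ R) (a : S) (q : ℕ) :
    ∃ p : ℕ, ((p : S), (q : S) * a) ∈ R ∧ ((q : S) * a, ((p + 1 : ℕ) : S)) ∈ R := by
  classical
  obtain ⟨M, hM⟩ := exists_upper hB h a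
  have hex : ∃ p : ℕ, ((q : S) * a, ((p + 1 : ℕ) : S)) ∈ R :=
    ⟨q * M, h.trans _ _ _ (hM q) (h.nat_mono hB (Nat.le_succ _))⟩
  refine ⟨Nat.find hex, ?_, Nat.find_spec hex⟩
  rcases Nat.eq_zero_or_pos (Nat.find hex) with h0 | h0
  · rw [h0]
    simpa using h.ext _ _ (hB.zero ((q : S) * a))
  · have := Nat.find_min hex (m := Nat.find hex - 1) (by omega)
    rw [Nat.sub_add_cancel h0] at this
    exact (ht _ _).resolve_left this

theorem val_approx (hB : Base le) {R : Set (S × S)} (h : Good le R)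
    (ht : ∀ a b, (a, b) ∈ R ∨ (b, a) ∈ R) (a : S) (q : ℕ) (hq : 0 < q) :
    ∃ p : ℕ, ((p : S), (q : S) * a) ∈ R ∧ ((q : S) * a, ((p + 1 : ℕ) : S)) ∈ R ∧
      (p : ℝ) ≤ q * val R a ∧ q * val R a ≤ p + 1 := by
  obtain ⟨p, h1, h2⟩ := approx hB h ht a q
  refine ⟨p, h1, h2, ?_, ?_⟩
  · have := le_val hB h a p q hq h1
    rw [div_le_iff₀ (by exact_mod_cast hq)] at this
    linarith
  · have := val_le R a (p + 1) q hq h2
    rw [le_div_iff₀ (by exact_mod_cast hq)] at this
    push_cast at this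
    linarith

theorem val_nonneg (R : Set (S × S)) (a : S) : 0 ≤ val R a := by
  refine Real.sInf_nonneg ?_
  rintro ρ ⟨p, q, _, _, rfl⟩
  positivity

theorem val_one (hB : Base le) {R : Set (S × S)} (h : Good le R) : val R (1 : S) = 1 := by
  have h1 : ((1 : ℕ) : S) * 1 = ((1 : ℕ) : S) := by simp
  refine le_antisymm ?_ ?_
  · have := val_le R 1 1 1 one_pos (by rw [h1]; exact h.ext _ _ (hB.refl _))
    simpa using this
  · have := le_val hB h 1 1 1 one_pos (by rw [h1]; exact h.ext _ _ (hB.refl _))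
    simpa using this

/-- a real number which is at most `c / q` in absolute value for all `q > 0` is zero -/
theorem eq_of_forall_q {x y c : ℝ} (h : ∀ q : ℕ, 0 < q → q * |x - y| ≤ c) : x = y := by
  by_contra hne
  have hpos : 0 < |x - y| := abs_pos.2 (sub_ne_zero.2 hne)
  obtain ⟨q, hq⟩ := exists_nat_gt (c / |x - y|)
  have h1 := h (q + 1) (Nat.succ_pos q)
  rw [div_lt_iff₀ hpos] at hq
  push_cast at h1
  nlinarith

theorem val_mono (hB : Base le) {R : Set (S × S)} (h : Good le R)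
    (ht : ∀ a b, (a, b) ∈ R ∨ (b, a) ∈ R) {a b : S} (hab : (a, b) ∈ R) : val R a ≤ val R b := by
  by_contra hlt
  push Not at hlt
  obtain ⟨q, hq⟩ := exists_nat_gt (1 / (val R a - val R b))
  have hd : 0 < val R a - val R b := by linarith
  have hq0 : 0 < q := by
    have : (0 : ℝ) < q := lt_trans (by positivity) hq
    exact_mod_cast this
  rw [div_lt_iff₀ hd] at hq
  obtain ⟨p, h1, h2, h3, h4⟩ := val_approx hB h ht a q hq0
  have h5 := h.mul' (h.ext _ _ (hB.refl (q : S))) hab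
  have h6 := le_val hB h b p q hq0 (h.trans _ _ _ h1 h5)
  rw [div_le_iff₀ (by exact_mod_cast hq0)] at h6
  nlinarith

theorem val_add (hB : Base le) {R : Set (S × S)} (h : Good le R)
    (ht : ∀ a b, (a, b) ∈ R ∨ (b, a) ∈ R) (a b : S) : val R (a + b) = val R a + val R b := by
  refine eq_of_forall_q (c := 2) fun q hq => ?_
  obtain ⟨p, h1, h2, h3, h4⟩ := val_approx hB h ht a q hq
  obtain ⟨p', h1', h2', h3', h4'⟩ := val_approx hB h ht b q hq
  have l1 := h.add' h1 h1'
  have l2 := h.add' h2 h2'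
  have e : (q : S) * a + q * b = q * (a + b) := by ring
  rw [e] at l1 l2
  have u1 := le_val hB h (a + b) (p + p') q hq (by simpa using l1)
  have u2 := val_le R (a + b) (p + 1 + (p' + 1)) q hq (by simpa using l2)
  have hq0 : (0 : ℝ) < q := by exact_mod_cast hq
  rw [div_le_iff₀ hq0] at u1
  rw [le_div_iff₀ hq0] at u2
  push_cast at u1 u2
  have key : (q : ℝ) * |val R (a + b) - (val R a + val R b)| =
      |q * (val R (a + b) - (val R a + val R b))| := by
    rw [abs_mul, abs_of_pos hq0]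
  rw [key, abs_le]
  constructor <;> nlinarith

theorem val_mul (hB : Base le) {R : Set (S × S)} (h : Good le R)
    (ht : ∀ a b, (a, b) ∈ R ∨ (b, a) ∈ R) (a b : S) : val R (a * b) = val R a * val R b := by
  refine eq_of_forall_q (c := val R a + val R b + 1) fun q hq => ?_
  obtain ⟨p, h1, h2, h3, h4⟩ := val_approx hB h ht a q hq
  obtain ⟨p', h1', h2', h3', h4'⟩ := val_approx hB h ht b q hq
  have l1 := h.mul' h1 h1'
  have l2 := h.mul' h2 h2'
  have e : (q : S) * a * (q * b) = ((q * q : ℕ) : S) * (a * b) := by push_cast; ring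
  rw [e] at l1 l2
  have hqq : 0 < q * q := Nat.mul_pos hq hq
  have u1 := le_val hB h (a * b) (p * p') (q * q) hqq (by simpa using l1)
  have u2 := val_le R (a * b) ((p + 1) * (p' + 1)) (q * q) hqq (by simpa using l2)
  have hq0 : (0 : ℝ) < q := by exact_mod_cast hq
  have hq1 : (1 : ℝ) ≤ q := by exact_mod_cast hq
  have hqq0 : (0 : ℝ) < ((q * q : ℕ) : ℝ) := by exact_mod_cast hqq
  rw [div_le_iff₀ hqq0] at u1
  rw [le_div_iff₀ hqq0] at u2
  push_cast at u1 u2
  set A := val R a with hA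
  set B := val R b with hBB
  have hA0 : 0 ≤ A := val_nonneg R a
  have hB0 : 0 ≤ B := val_nonneg R b
  have hp0 : (0 : ℝ) ≤ p := by positivity
  have hp0' : (0 : ℝ) ≤ p' := by positivity
  have m1 : (p : ℝ) * p' ≤ (q * A) * (q * B) := mul_le_mul h3 h3' hp0' (by positivity)
  have m2 : (q * A) * (q * B) ≤ ((p : ℝ) + 1) * (p' + 1) :=
    mul_le_mul h4 h4' (by positivity) (by positivity)
  have key : (q : ℝ) * q * |val R (a * b) - A * B| ≤ p + p' + 1 := by
    have : (q : ℝ) * q * |val R (a * b) - A * B| = |q * q * (val R (a * b) - A * B)| := by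
      rw [abs_mul, abs_of_pos (by positivity : (0 : ℝ) < q * q)]
    rw [this, abs_le]
    constructor <;> nlinarith
  have key2 : (q : ℝ) * (q * |val R (a * b) - A * B|) ≤ q * (A + B + 1) := by
    have : (p : ℝ) + p' + 1 ≤ q * (A + B + 1) := by nlinarith
    nlinarith
  exact le_of_mul_le_mul_left key2 hq0

end Pool.Agent.K7.H26.SHI
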