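import Pool.Agent.K7.H26.SHI.Semi
import Pool.Agent.K7.H26.SHI.Eta

/-!
# From the counting lemma to the invariant
-/

set_option autoImplicit false
set_option linter.constructorNameAsVariable false

namespace Pool.Agent.K7.H26.SHI

theorem val_zero {R : Set (GS × GS)} (h : Good gle R)
    (ht : ∀ a b, (a, b) ∈ R ∨ (b, a) ∈ R) : val R (0 : GS) = 0 := by
  have := val_add base_gle h ht 0 0
  rw [add_zero] at this
  linarith

theorem val_natCast {R : Set (GS × GS)} (h : Good gle R)
    (ht : ∀ a b, (a, b) ∈ R ∨ (b, a) ∈ R) (n : ℕ) : val R (n : GS) = n := by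
  induction n with
  | zero => simpa using val_zero h ht
  | succ n ih =>
    rw [Nat.cast_succ, val_add base_gle h ht, ih, val_one base_gle h, Nat.cast_succ]

theorem mm_pos : 0 < mm := by unfold mm; positivity

theorem mm_pos' : (0 : ℝ) < (mm : ℝ) := by exact_mod_cast mm_pos

theorem main (hC : StComb) :
    ∃ η : ∀ (V : Type) [Fintype V], SimpleGraph V → ℝ, IsSHInvariant η ∧
      η (Fin 5 × Fin mm) (lex C5 (KK mm)) < mm * η (Fin 5) C5 := by
  classical
  set B : GS := mk (lex C5 (KK mm)) with hBdef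
  set C : GS := mk C5 with hCdef
  have hm := mm_pos'
  have hx : ((10000 : ℕ) : GS) * B ≠ 0 := by
    intro h
    have h1 : gle ((1 : ℕ) : GS) (((10000 : ℕ) : GS) * B) := by
      rw [natCast_eq, natCast_eq, hBdef, ← mk_disj, gle_mk]
      exact ⟨⟨fun _ => (0, (0, ⟨0, mm_pos⟩)), fun {x y} hxy => (hxy (Subsingleton.elim _ _)).elim⟩⟩
    rw [h] at h1
    have h2 : gle ((1 : ℕ) : GS) ((0 : ℕ) : GS) := by simpa using h1
    have := base_gle.nat _ _ h2
    omega
  have hobs : ∀ j L N : ℕ, gle ((j : GS) * (((9999 * mm : ℕ) : GS) * C) ^ N)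
      ((L : GS) * (((10000 : ℕ) : GS) * B) ^ N) →
      (j : ℝ) * (9999 * mm * (5 / 2)) ^ N ≤ L * (10000 * ((2499 / 1000) * mm)) ^ N := by
    intro j L N h
    have e1 : (j : GS) * (((9999 * mm : ℕ) : GS) * C) ^ N =
        mk (disj (KK (j * (9999 * mm) ^ N)) (dpow C5 N)) := by
      rw [mk_disj, ← natCast_eq, ← mk_pow, mul_pow]
      push_cast
      ring
    have e2 : (L : GS) * (((10000 : ℕ) : GS) * B) ^ N =
        mk (disj (KK (L * 10000 ^ N)) (dpow (lex C5 (KK mm)) N)) := by
      rw [mk_disj, ← natCast_eq, ← mk_pow, mul_pow]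
      push_cast
      ring
    rw [e1, e2, gle_mk] at h
    have := hC _ _ _ h
    push_cast at this
    rw [mul_pow (9999 * (mm : ℝ)) (5 / 2) N, mul_pow (10000 : ℝ) _ N]
    calc (j : ℝ) * ((9999 * (mm : ℝ)) ^ N * (5 / 2) ^ N)
        = (j : ℝ) * (9999 * mm) ^ N * (5 / 2) ^ N := by ring
      _ ≤ _ := this
      _ = _ := by ring
  obtain ⟨R, hR, hxy, ht⟩ := exists_total base_gle (((10000 : ℕ) : GS) * B)
    (((9999 * mm : ℕ) : GS) * C) hx (9999 * mm * (5 / 2)) (10000 * ((2499 / 1000) * mm))
    (by positivity) (by nlinarith) hobs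
  refine ⟨fun V _ G => val R (mk G), ?_, ?_⟩
  · refine ⟨fun V _ G => val_nonneg R _, ?_, ?_, ?_, ?_⟩
    · have := val_natCast hR ht 1
      rw [natCast_eq] at this
      simpa using this
    · intro V W _ _ G H h
      exact val_mono base_gle hR ht (hR.ext _ _ h)
    · intro V W _ _ G H
      rw [mk_join]
      exact val_add base_gle hR ht _ _
    · intro V W _ _ G H
      rw [mk_disj]
      exact val_mul base_gle hR ht _ _
  · have h1 := val_mono base_gle hR ht hxy
    rw [val_mul base_gle hR ht, val_mul base_gle hR ht, val_natCast hR ht, val_natCast hR ht] at h1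
    have h2 : (1 : ℝ) ≤ val R C := by
      have h3 : gle ((1 : ℕ) : GS) C := by
        rw [natCast_eq, hCdef, gle_mk]
        exact ⟨⟨fun _ => 0, fun {x y} hxy => (hxy (Subsingleton.elim _ _)).elim⟩⟩
      have := val_mono base_gle hR ht (hR.ext _ _ h3)
      rw [val_natCast hR ht] at this
      simpa using this
    show val R B < mm * val R C
    push_cast at h1
    nlinarith

end Pool.Agent.K7.H26.SHI
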