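import Pool.Agent.K7.H26.SHI.Defs
import Pool.Agent.K7.H26.SHI.Dual

/-!
# The semiring of finite graphs up to homomorphic equivalence
-/

set_option autoImplicit false

namespace Pool.Agent.K7.H26.SHI

/-- finite graphs -/
structure FG : Type 1 where
  V : Type
  fin : Fintype V
  G : SimpleGraph V

attribute [instance] FG.fin

def FG.hom (A B : FG) : Prop := Nonempty (A.G →g B.G)

theorem FG.hom_refl (A : FG) : A.hom A := ⟨SimpleGraph.Hom.id⟩

theorem FG.hom_trans {A B C : FG} (h1 : A.hom B) (h2 : B.hom C) : A.hom C := by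
  obtain ⟨f⟩ := h1
  obtain ⟨g⟩ := h2
  exact ⟨g.comp f⟩

instance fgSetoid : Setoid FG where
  r A B := A.hom B ∧ B.hom A
  iseqv := ⟨fun A => ⟨A.hom_refl, A.hom_refl⟩, fun h => ⟨h.2, h.1⟩,
    fun h1 h2 => ⟨FG.hom_trans h1.1 h2.1, FG.hom_trans h2.2 h1.2⟩⟩

/-- finite graphs up to homomorphic equivalence -/
def GS : Type 1 := Quotient fgSetoid

def mk {V : Type} [Fintype V] (G : SimpleGraph V) : GS := Quotient.mk fgSetoid ⟨V, inferInstance, G⟩

section homs
variable {V V' W W' : Type} {G : SimpleGraph V} {G' : SimpleGraph V'} {H : SimpleGraph W}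
  {H' : SimpleGraph W'}

def joinHom (f : G →g G') (g : H →g H') : join G H →g join G' H' where
  toFun := Sum.map f g
  map_rel' := by
    rintro (v | w) (v' | w') h
    · exact f.map_rel h
    · trivial
    · trivial
    · exact g.map_rel h

def disjHom (f : G →g G') (g : H →g H') : disj G H →g disj G' H' where
  toFun := Prod.map f g
  map_rel' := by
    rintro ⟨v, w⟩ ⟨v', w'⟩ (h | h)
    · exact Or.inl (f.map_rel h)
    · exact Or.inr (g.map_rel h)

end homs

def fgAdd (A B : FG) : FG := ⟨A.V ⊕ B.V, inferInstance, join A.G B.G⟩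
def fgMul (A B : FG) : FG := ⟨A.V × B.V, inferInstance, disj A.G B.G⟩

theorem fgAdd_hom {A A' B B' : FG} (h1 : A.hom A') (h2 : B.hom B') :
    (fgAdd A B).hom (fgAdd A' B') := by
  obtain ⟨f⟩ := h1
  obtain ⟨g⟩ := h2
  exact ⟨joinHom f g⟩

theorem fgMul_hom {A A' B B' : FG} (h1 : A.hom A') (h2 : B.hom B') :
    (fgMul A B).hom (fgMul A' B') := by
  obtain ⟨f⟩ := h1
  obtain ⟨g⟩ := h2
  exact ⟨disjHom f g⟩

def gAdd : GS → GS → GS := Quotient.map₂ fgAdd
  (fun _ _ h _ _ h' => ⟨fgAdd_hom h.1 h'.1, fgAdd_hom h.2 h'.2⟩)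

def gMul : GS → GS → GS := Quotient.map₂ fgMul
  (fun _ _ h _ _ h' => ⟨fgMul_hom h.1 h'.1, fgMul_hom h.2 h'.2⟩)

theorem sound_equiv {A B : FG} (e : A.V ≃ B.V)
    (h : ∀ x y, A.G.Adj x y ↔ B.G.Adj (e x) (e y)) :
    (Quotient.mk fgSetoid A : GS) = Quotient.mk fgSetoid B := by
  refine Quotient.sound ⟨⟨⟨e, fun {x y} hxy => (h x y).1 hxy⟩⟩, ⟨⟨e.symm, fun {x y} hxy => ?_⟩⟩⟩
  refine (h _ _).2 ?_
  simpa using hxy

def gZero : GS := mk (⊤ : SimpleGraph Empty)
def gOne : GS := mk (⊤ : SimpleGraph Unit)

instance : Zero GS := ⟨gZero⟩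
instance : One GS := ⟨gOne⟩
instance : Add GS := ⟨gAdd⟩
instance : Mul GS := ⟨gMul⟩

instance : CommSemiring GS where
  nsmul := nsmulRec
  npow := npowRec
  add_assoc a b c := by
    induction a using Quotient.inductionOn with | _ A =>
    induction b using Quotient.inductionOn with | _ B =>
    induction c using Quotient.inductionOn with | _ C =>
    refine sound_equiv (A := fgAdd (fgAdd A B) C) (B := fgAdd A (fgAdd B C))
      (Equiv.sumAssoc _ _ _) ?_
    rintro ((x | x) | x) ((y | y) | y) <;> exact Iff.rfl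
  zero_add a := by
    induction a using Quotient.inductionOn with | _ A =>
    refine sound_equiv (A := fgAdd ⟨Empty, inferInstance, ⊤⟩ A) (B := A)
      (Equiv.emptySum _ _) ?_
    rintro (x | x) (y | y)
    · exact x.elim
    · exact x.elim
    · exact y.elim
    · exact Iff.rfl
  add_zero a := by
    induction a using Quotient.inductionOn with | _ A =>
    refine sound_equiv (A := fgAdd A ⟨Empty, inferInstance, ⊤⟩) (B := A)
      (Equiv.sumEmpty _ _) ?_
    rintro (x | x) (y | y)
    · exact Iff.rfl
    · exact y.elim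
    · exact x.elim
    · exact x.elim
  add_comm a b := by
    induction a using Quotient.inductionOn with | _ A =>
    induction b using Quotient.inductionOn with | _ B =>
    refine sound_equiv (A := fgAdd A B) (B := fgAdd B A) (Equiv.sumComm _ _) ?_
    rintro (x | x) (y | y) <;> exact Iff.rfl
  left_distrib a b c := by
    induction a using Quotient.inductionOn with | _ A =>
    induction b using Quotient.inductionOn with | _ B =>
    induction c using Quotient.inductionOn with | _ C =>
    refine sound_equiv (A := fgMul A (fgAdd B C)) (B := fgAdd (fgMul A B) (fgMul A C))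
      (Equiv.prodSumDistrib _ _ _) ?_
    rintro ⟨x, (y | y)⟩ ⟨x', (y' | y')⟩
    · exact Iff.rfl
    · exact ⟨fun _ => trivial, fun _ => Or.inr trivial⟩
    · exact ⟨fun _ => trivial, fun _ => Or.inr trivial⟩
    · exact Iff.rfl
  right_distrib a b c := by
    induction a using Quotient.inductionOn with | _ A =>
    induction b using Quotient.inductionOn with | _ B =>
    induction c using Quotient.inductionOn with | _ C =>
    refine sound_equiv (A := fgMul (fgAdd A B) C) (B := fgAdd (fgMul A C) (fgMul B C))
      (Equiv.sumProdDistrib _ _ _) ?_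
    rintro ⟨(y | y), x⟩ ⟨(y' | y'), x'⟩
    · exact Iff.rfl
    · exact ⟨fun _ => trivial, fun _ => Or.inl trivial⟩
    · exact ⟨fun _ => trivial, fun _ => Or.inl trivial⟩
    · exact Iff.rfl
  zero_mul a := by
    induction a using Quotient.inductionOn with | _ A =>
    refine sound_equiv (A := fgMul ⟨Empty, inferInstance, ⊤⟩ A) (B := ⟨Empty, inferInstance, ⊤⟩)
      (Equiv.equivOfIsEmpty (α := Empty × A.V) (β := Empty)) ?_
    rintro ⟨x, _⟩
    exact x.elim
  mul_zero a := by
    induction a using Quotient.inductionOn with | _ A =>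
    refine sound_equiv (A := fgMul A ⟨Empty, inferInstance, ⊤⟩) (B := ⟨Empty, inferInstance, ⊤⟩)
      (Equiv.equivOfIsEmpty (α := A.V × Empty) (β := Empty)) ?_
    rintro ⟨_, x⟩
    exact x.elim
  mul_assoc a b c := by
    induction a using Quotient.inductionOn with | _ A =>
    induction b using Quotient.inductionOn with | _ B =>
    induction c using Quotient.inductionOn with | _ C =>
    refine sound_equiv (A := fgMul (fgMul A B) C) (B := fgMul A (fgMul B C))
      (Equiv.prodAssoc _ _ _) ?_
    rintro ⟨⟨x, y⟩, z⟩ ⟨⟨x', y'⟩, z'⟩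
    exact or_assoc
  one_mul a := by
    induction a using Quotient.inductionOn with | _ A =>
    refine sound_equiv (A := fgMul ⟨Unit, inferInstance, ⊤⟩ A) (B := A)
      (Equiv.punitProd A.V) ?_
    rintro ⟨x, y⟩ ⟨x', y'⟩
    refine ⟨fun h => h.resolve_left ?_, Or.inr⟩
    intro h
    exact h (Subsingleton.elim _ _)
  mul_one a := by
    induction a using Quotient.inductionOn with | _ A =>
    refine sound_equiv (A := fgMul A ⟨Unit, inferInstance, ⊤⟩) (B := A)
      (Equiv.prodPUnit A.V) ?_
    rintro ⟨x, y⟩ ⟨x', y'⟩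
    refine ⟨fun h => h.resolve_right ?_, Or.inl⟩
    intro h
    exact h (Subsingleton.elim _ _)
  mul_comm a b := by
    induction a using Quotient.inductionOn with | _ A =>
    induction b using Quotient.inductionOn with | _ B =>
    refine sound_equiv (A := fgMul A B) (B := fgMul B A) (Equiv.prodComm _ _) ?_
    rintro ⟨x, y⟩ ⟨x', y'⟩
    exact or_comm

/-- the homomorphism order -/
def gle : GS → GS → Prop := Quotient.lift₂ FG.hom (by
  rintro a b c d ⟨h1, h2⟩ ⟨h3, h4⟩
  exact propext ⟨fun h => FG.hom_trans h2 (FG.hom_trans h h3),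
    fun h => FG.hom_trans h1 (FG.hom_trans h h4)⟩)

section
variable {V W : Type} [Fintype V] [Fintype W]

theorem gle_mk (G : SimpleGraph V) (H : SimpleGraph W) : gle (mk G) (mk H) ↔ Nonempty (G →g H) :=
  Iff.rfl

theorem mk_join (G : SimpleGraph V) (H : SimpleGraph W) : mk (join G H) = mk G + mk H := rfl
theorem mk_disj (G : SimpleGraph V) (H : SimpleGraph W) : mk (disj G H) = mk G * mk H := rfl

theorem mk_eq_of_equiv (G : SimpleGraph V) (H : SimpleGraph W) (e : V ≃ W)
    (h : ∀ x y, G.Adj x y ↔ H.Adj (e x) (e y)) : mk G = mk H :=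
  sound_equiv (A := ⟨V, inferInstance, G⟩) (B := ⟨W, inferInstance, H⟩) e h

theorem mk_top_eq (e : V ≃ W) : mk (⊤ : SimpleGraph V) = mk (⊤ : SimpleGraph W) := by
  refine mk_eq_of_equiv _ _ e fun x y => ?_
  simp

end

theorem natCast_eq (n : ℕ) : ((n : ℕ) : GS) = mk (KK n) := by
  induction n with
  | zero =>
    rw [Nat.cast_zero]
    exact mk_top_eq (Equiv.equivOfIsEmpty (α := Empty) (β := Fin 0))
  | succ n ih =>
    rw [Nat.cast_succ, ih]
    have h1 : (1 : GS) = mk (⊤ : SimpleGraph (Fin 1)) :=
      mk_top_eq (Equiv.ofUnique Unit (Fin 1))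
    rw [h1, ← mk_join]
    refine mk_eq_of_equiv _ _ finSumFinEquiv ?_
    rintro (x | x) (y | y)
    · simp [join]
    · have := x.2
      simp [join, Fin.ext_iff]; omega
    · have := y.2
      simp [join, Fin.ext_iff]; omega
    · simp [join]

theorem mk_pow {V : Type} [Fintype V] [DecidableEq V] (G : SimpleGraph V) (N : ℕ) :
    mk G ^ N = mk (dpow G N) := by
  induction N with
  | zero =>
    rw [pow_zero]
    have h1 : (1 : GS) = mk (⊤ : SimpleGraph (Fin 1)) :=
      mk_top_eq (Equiv.ofUnique Unit (Fin 1))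
    rw [h1]
    refine mk_eq_of_equiv _ _ (Equiv.ofUnique (Fin 1) (Fin 0 → V)) ?_
    intro x y
    have : x = y := Subsingleton.elim _ _
    subst this
    simp
  | succ N ih =>
    rw [pow_succ', ih, ← mk_disj]
    refine mk_eq_of_equiv _ _ (Fin.consEquiv (fun _ : Fin (N + 1) => V)) ?_
    rintro ⟨x, f⟩ ⟨x', f'⟩
    constructor
    · rintro (h | ⟨i, h⟩)
      · exact ⟨0, h⟩
      · exact ⟨i.succ, by simpa using h⟩
    · rintro ⟨i, h⟩
      refine Fin.cases ?_ (fun i => ?_) i (motive := fun i => G.Adj _ _ → _) h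
      · intro h
        exact Or.inl h
      · intro h
        exact Or.inr ⟨i, by simpa using h⟩

theorem base_gle : Base gle where
  refl a := by
    induction a using Quotient.inductionOn with | _ A =>
    exact A.hom_refl
  trans a b c := by
    induction a using Quotient.inductionOn with | _ A =>
    induction b using Quotient.inductionOn with | _ B =>
    induction c using Quotient.inductionOn with | _ C =>
    exact FG.hom_trans
  add a b c := by
    induction a using Quotient.inductionOn with | _ A =>
    induction b using Quotient.inductionOn with | _ B =>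
    induction c using Quotient.inductionOn with | _ C =>
    exact fun h => fgAdd_hom h C.hom_refl
  mul a b c := by
    induction a using Quotient.inductionOn with | _ A =>
    induction b using Quotient.inductionOn with | _ B =>
    induction c using Quotient.inductionOn with | _ C =>
    exact fun h => fgMul_hom h C.hom_refl
  zero a := by
    induction a using Quotient.inductionOn with | _ A =>
    exact ⟨⟨fun x => x.elim, fun {x} => x.elim⟩⟩
  arch a := by
    induction a using Quotient.inductionOn with | _ A =>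
    refine ⟨Fintype.card A.V, ?_⟩
    rw [natCast_eq]
    refine ⟨⟨Fintype.equivFin A.V, ?_⟩⟩
    intro x y hxy
    simpa using hxy.ne
  one a := by
    induction a using Quotient.inductionOn with | _ A =>
    rcases isEmpty_or_nonempty A.V with h | ⟨⟨v⟩⟩
    · left
      exact sound_equiv (A := A) (B := ⟨Empty, inferInstance, ⊤⟩)
        (Equiv.equivOfIsEmpty (α := A.V) (β := Empty)) (fun x => (h.false x).elim)
    · right
      exact ⟨⟨fun _ => v, fun {x y} hxy => (hxy (Subsingleton.elim _ _)).elim⟩⟩
  nat n m h := by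
    rw [natCast_eq, natCast_eq, gle_mk] at h
    obtain ⟨f⟩ := h
    have hinj : Function.Injective f := by
      intro x y hxy
      by_contra hne
      exact (f.map_rel (show (KK n).Adj x y from hne)).ne hxy
    simpa using Fintype.card_le_of_injective f hinj

end Pool.Agent.K7.H26.SHI
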